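import Pool.Agent.Work.MP_db9399_lt.Base
import Pool.Agent.Work.MP_db9399_nc_helper63.CLEAN

/-! THEOREM LT, block CLEAN2 (from CORE and STAR): copy of CLEAN without a free colour. -/

set_option autoImplicit false
set_option linter.unusedSectionVars false

namespace Pool.Agent.Work.MP_db9399_lt.helper15

open Finset Classical
open Pool.Agent.Work.MP_db9399_all (nb)
open Pool.Agent.Work.MP_db9399_nc (nn PEC Mts mem_nb mem_nn)
open Pool.Agent.Work.MP_db9399_nc.helper63

universe u

section
variable {V : Type u} [Fintype V] {R : SimpleGraph V} {Cl : Finset ℕ} {c : V → ℕ}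

theorem card_none2 (hrep : ∀ v w, v ≠ w → c v = c w → c v ∉ Cl) :
    (nb (starG R Cl c) none).card ≤ Cl.card := by
  apply Finset.card_le_card_of_injOn (fun o => o.elim 0 c)
  · intro y hy
    have hy := mem_nb.mp (mem_coe.mp hy)
    rcases y with _ | v
    · exact absurd hy star_nn
    · rw [star_none] at hy
      exact mem_coe.mpr hy
  · intro y hy z hz hyz
    have hy := mem_nb.mp (mem_coe.mp hy)
    have hz := mem_nb.mp (mem_coe.mp hz)
    rcases y with _ | v
    · exact absurd hy star_nn
    · rcases z with _ | w
      · exact absurd hz star_nn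
      · by_contra hne
        rw [star_none] at hy
        exact hrep v w (fun h => hne (by rw [h])) hyz hy

end

theorem stmt_CLEAN2 (hCORE : Pool.Agent.Work.MP_db9399_dn.Stmt_CORE.{u})
    (hSTAR : Pool.Agent.Work.MP_db9399_nc.Stmt_STAR.{u}) : Stmt_CLEAN2.{u} := by
  intro V _ R Cl c W hrep hdeg hdegW hind
  have hcore := hCORE (starG R Cl c) Cl.card (insert none (W.map Function.Embedding.some))
    (by
      intro y hy
      rcases y with _ | v
      · exact absurd (mem_insert_self _ _) hy
      · have hv : v ∉ W := fun h => hy (mem_insert_of_mem (mem_map_of_mem _ h))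
        exact (Nat.add_le_add_right (card_some v) 1).trans (hdeg v hv))
    (by
      intro y hy
      rw [mem_insert, mem_map] at hy
      rcases hy with rfl | ⟨v, hv, rfl⟩
      · exact card_none2 hrep
      · refine (card_some v).trans ?_
        rw [if_neg (hdegW v hv).2]
        exact (hdegW v hv).1)
    (by
      intro y hy z hz h
      rw [mem_insert, mem_map] at hy hz
      rcases hy with rfl | ⟨v, hv, rfl⟩
      · rcases hz with rfl | ⟨w, hw, rfl⟩
        · exact star_nn h
        · exact (hdegW w hw).2 (star_none.mp h)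
      · rcases hz with rfl | ⟨w, hw, rfl⟩
        · exact (hdegW v hv).2 (star_none'.mp h)
        · exact hind v hv w hw (star_some.mp h))
  obtain ⟨t0, hsym, hlt, hinj⟩ := hcore
  let φ : ℕ → ℕ := fun i => if h : i < Cl.card then Cl.orderEmbOfFin rfl ⟨i, h⟩ else 0
  have hφ : ∀ i, i < Cl.card → φ i ∈ Cl := by
    intro i hi
    simp only [φ, dif_pos hi]
    exact Finset.orderEmbOfFin_mem Cl rfl _
  have hφinj : ∀ i j, i < Cl.card → j < Cl.card → φ i = φ j → i = j := by
    intro i j hi hj h
    simp only [φ, dif_pos hi, dif_pos hj] at h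
    have := (Cl.orderEmbOfFin rfl).injective h
    exact Fin.mk.inj_iff.mp this
  have hP : PEC (starG R Cl c) Cl (fun x y => φ (t0 x y)) := by
    refine ⟨fun x y => by simp only [hsym x y], fun x y h => hφ _ (hlt x y h), ?_⟩
    intro x y hy z hz h
    exact hinj x hy hz (hφinj _ _ (hlt x y (mem_nb.mp hy)) (hlt x z (mem_nb.mp hz)) h)
  obtain ⟨t1, h1, h2⟩ := hSTAR (starG R Cl c) Cl _ none (fun o => o.elim 0 c) hP
    (by
      intro y hy
      have hy := mem_nb.mp hy
      rcases y with _ | v
      · exact absurd hy star_nn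
      · show c v ∈ Cl
        exact star_none.mp hy)
    (by
      intro y hy z hz hyz
      have hy := mem_nb.mp (mem_coe.mp hy)
      have hz := mem_nb.mp (mem_coe.mp hz)
      rcases y with _ | v
      · exact absurd hy star_nn
      · rcases z with _ | w
        · exact absurd hz star_nn
        · by_contra hne
          rw [star_none] at hy
          exact hrep v w (fun h => hne (by rw [h])) hyz hy)
  refine ⟨fun v w => t1 (some v) (some w), ⟨?_, ?_, ?_⟩, ?_⟩
  · intro v w
    exact h1.sym _ _
  · intro v w hvw
    exact h1.mem _ _ (star_some.mpr hvw)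
  · intro v w hw w' hw' h
    have h3 := h1.inj (some v) (mem_coe.mpr (mem_nb.mpr (star_some.mpr (mem_nb.mp hw))))
      (mem_coe.mpr (mem_nb.mpr (star_some.mpr (mem_nb.mp hw')))) h
    exact Option.some_inj.mp h3
  · intro v w hvw heq
    by_cases hv : c v ∈ Cl
    · have h3 : t1 none (some v) = c v := h2 (some v) (mem_nb.mpr (star_none.mpr hv))
      have h4 : t1 (some v) none = c v := by rw [h1.sym]; exact h3
      have h5 := h1.inj (some v) (mem_coe.mpr (mem_nb.mpr (star_some.mpr hvw)))
        (mem_coe.mpr (mem_nb.mpr (star_none'.mpr hv))) (heq.trans h4.symm)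
      exact absurd h5 (by simp)
    · apply hv
      rw [← heq]
      exact h1.mem _ _ (star_some.mpr hvw)

end Pool.Agent.Work.MP_db9399_lt.helper15
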