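import Pool.Agent.Work.MP_db9399_lt_helper15.FinBase

/-! THEOREM LT, block FINAE (from ABSB, COMP, CLEAN): even order, many right colours. -/

set_option autoImplicit false
set_option linter.unusedSectionVars false

namespace Pool.Agent.Work.MP_db9399_lt.helper15

open Finset Classical
open Pool.Agent.Work.MP_db9399_all (nb)
open Pool.Agent.Work.MP_db9399_nc (nn PEC Mts mem_nb mem_nn)

universe u

theorem stmt_FINAE (hABSB : Pool.Agent.Work.MP_db9399_nc.Stmt_ABSB.{u})
    (hCOMP : Pool.Agent.Work.MP_db9399_nc.Stmt_COMP.{u})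
    (hCLEAN : Pool.Agent.Work.MP_db9399_nc.Stmt_CLEAN.{u}) : Stmt_FINAE.{u} := by
  intro V _ R Cl O st W H heven hmany
  have hOC : (Cl \ O).card + O.card = Cl.card := card_sdiff_add_card_eq_card H.OC
  obtain ⟨E, hE1, hE2⟩ := exists_subset_card_eq (s := Cl \ O) (n := 2 * W.card + 14) (by omega)
  have hECl : E ⊆ Cl := fun b hb => (mem_sdiff.mp (hE1 hb)).1
  have hEO : ∀ b ∈ E, b ∉ O := fun b hb => (mem_sdiff.mp (hE1 hb)).2
  obtain ⟨M, hM, hM1, hM2⟩ := rounds hABSB hCOMP H E hE2 (fun _ => ∅) (fun b _ => by simp)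
    (fun v => by simp) (fun b _ => by simpa using heven)
  obtain ⟨β, hβ⟩ := exists_notMem Cl
  have hsub : (Cl \ E).card + E.card = Cl.card := card_sdiff_add_card_eq_card hECl
  have hO' : O ⊆ Cl \ E := fun b hb => mem_sdiff.mpr ⟨H.OC hb, fun h => hEO b h hb⟩
  have hβ' : β ∉ Cl \ E := fun h => hβ (mem_sdiff.mp h).1
  have hfull : ∀ v, (E.filter (fun b => M b v ≠ v)).card = E.card := by
    intro v
    congr 1
    rw [filter_eq_self]
    intro b hb h
    exact absurd ((hM1 b hb v).mp h) (notMem_empty _)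
  have hdeg : ∀ v, (nb (restG R E M) v).card +
      (if cst O β st v ∈ Cl \ E then 1 else 0) + 1 =
      (Cl \ E).card + (if v ∈ W then 1 else 0) := by
    intro v
    have h1 := deg_rest hM v
    have h2 := H.deg v
    rw [hfull v] at h1
    have h3 : (cst O β st v ∈ Cl \ E) ↔ v ∈ O.image st := cst_mem hO' hβ' v
    by_cases h4 : v ∈ O.image st
    · rw [if_pos h4] at h2
      rw [if_pos (h3.mpr h4)]
      omega
    · rw [if_neg h4] at h2
      rw [if_neg (fun h => h4 (h3.mp h))]
      omega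
  obtain ⟨t0, ht0, ht0c⟩ := hCLEAN (restG R E M) (Cl \ E) (cst O β st) W
    (fun v w hvw h => cst_inj hβ' v w hvw h)
    (by
      intro v hv
      have h := hdeg v
      rw [if_neg hv] at h
      omega)
    (by
      intro v hv
      have h := hdeg v
      rw [if_pos hv] at h
      omega)
    hM2
    (by
      have h1 : (O ∪ E).card < Cl.card := by
        have := card_union_le O E
        omega
      obtain ⟨a, ha, ha'⟩ := exists_mem_notMem_of_card_lt_card h1
      rw [mem_union, not_or] at ha'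
      refine ⟨a, mem_sdiff.mpr ⟨ha, ha'.2⟩, ?_⟩
      intro v hv
      rcases cst_cases (O := O) (β := β) (st := st) v with ⟨h1, _⟩ | ⟨_, h2⟩
      · exact ha'.1 (hv ▸ h1)
      · exact hβ (by rw [← h2, hv]; exact ha))
  obtain ⟨t, ht, ht1, ht2⟩ := merge hM hECl ht0
  refine ⟨t, ht, ?_⟩
  intro b hb w hw heq
  by_cases hc : ∃ b' ∈ E, M b' (st b) = w
  · obtain ⟨b', hb', hbw⟩ := hc
    have h1 : M b' (st b) ≠ st b := by rw [hbw]; exact hw.ne.symm
    have h2 := ht1 b' hb' (st b) h1
    rw [hbw, heq] at h2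
    exact hEO b' hb' (h2 ▸ hb)
  · have h1 : (restG R E M).Adj (st b) w :=
      ⟨hw, fun b' hb' => ⟨fun h => hc ⟨b', hb', h⟩, fun h => hc ⟨b', hb', mts_sym hM hb' h⟩⟩⟩
    rw [ht2 _ _ h1] at heq
    apply ht0c _ _ h1
    rw [heq, cst_st H.inj hb]

end Pool.Agent.Work.MP_db9399_lt.helper15
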