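import Pool.Agent.Work.MP_db9399_lt_helper15.FinBase

/-! THEOREM LT, block FINAO (from ABSB, COMP, CLEAN2): odd order, many right colours. -/

set_option autoImplicit false
set_option linter.unusedSectionVars false

namespace Pool.Agent.Work.MP_db9399_lt.helper15

open Finset Classical
open Pool.Agent.Work.MP_db9399_all (nb)
open Pool.Agent.Work.MP_db9399_nc (nn PEC Mts mem_nb mem_nn)

universe u

theorem stmt_FINAO (hABSB : Pool.Agent.Work.MP_db9399_nc.Stmt_ABSB.{u})
    (hCOMP : Pool.Agent.Work.MP_db9399_nc.Stmt_COMP.{u})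
    (hCLEAN2 : Stmt_CLEAN2.{u}) : Stmt_FINAO.{u} := by
  intro V _ R Cl O st W H hodd hmany
  have hOW : (O.filter (fun b => st b ∈ W)).card ≤ W.card := by
    apply card_le_card_of_injOn st
    · intro b hb
      exact (mem_filter.mp (mem_coe.mp hb)).2
    · intro b hb b' hb' h
      exact H.inj (mem_coe.mpr (mem_filter.mp (mem_coe.mp hb)).1)
        (mem_coe.mpr (mem_filter.mp (mem_coe.mp hb')).1) h
  obtain ⟨E, hE0, hEO, hE2⟩ := exists_subsuperset_card_eq (s := O.filter (fun b => st b ∈ W))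
    (t := O) (n := 2 * W.card + 14) (filter_subset _ _) (by omega) (by omega)
  have hECl : E ⊆ Cl := fun b hb => H.OC (hEO hb)
  have hX2 : ∀ v, (E.filter (fun b => v ∈ ({st b} : Finset V))).card ≤ 1 := by
    intro v
    rw [card_le_one]
    intro b hb b' hb'
    rw [mem_filter, mem_singleton] at hb hb'
    exact H.inj (mem_coe.mpr (hEO hb.1)) (mem_coe.mpr (hEO hb'.1)) (hb.2.symm.trans hb'.2)
  obtain ⟨M, hM, hM1, hM2⟩ := rounds hABSB hCOMP H E hE2 (fun b => {st b})
    (fun b _ => by simp) hX2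
    (fun b _ => by
      rw [card_sdiff_of_subset (subset_univ _), card_univ, card_singleton]
      obtain ⟨k, hk⟩ := hodd
      exact ⟨k, by omega⟩)
  obtain ⟨β, hβ⟩ := exists_notMem Cl
  have hsub : (Cl \ E).card + E.card = Cl.card := card_sdiff_add_card_eq_card hECl
  have hO' : O \ E ⊆ Cl \ E := fun b hb =>
    mem_sdiff.mpr ⟨H.OC (mem_sdiff.mp hb).1, (mem_sdiff.mp hb).2⟩
  have hβ' : β ∉ Cl \ E := fun h => hβ (mem_sdiff.mp h).1
  have hfull : ∀ v, (E.filter (fun b => M b v ≠ v)).card + (if v ∈ E.image st then 1 else 0) =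
      E.card := by
    intro v
    have h1 := card_filter_add_card_filter_not (s := E) (fun b => M b v ≠ v)
    have h2 : (E.filter (fun b => ¬ M b v ≠ v)).card = if v ∈ E.image st then 1 else 0 := by
      have h3 : E.filter (fun b => ¬ M b v ≠ v) = E.filter (fun b => v ∈ ({st b} : Finset V)) := by
        apply filter_congr
        intro b hb
        rw [not_not, hM1 b hb v]
      rw [h3]
      by_cases h4 : v ∈ E.image st
      · rw [if_pos h4]
        obtain ⟨b, hb, hbv⟩ := mem_image.mp h4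
        have h5 : 0 < (E.filter (fun b => v ∈ ({st b} : Finset V))).card :=
          card_pos.mpr ⟨b, mem_filter.mpr ⟨hb, mem_singleton.mpr hbv.symm⟩⟩
        have h6 := hX2 v
        omega
      · rw [if_neg h4, card_eq_zero, filter_eq_empty_iff]
        intro b hb h
        exact h4 (mem_image.mpr ⟨b, hb, (mem_singleton.mp h).symm⟩)
    omega
  have hsplit : ∀ v, (if v ∈ O.image st then 1 else 0) =
      (if v ∈ E.image st then 1 else 0) + (if v ∈ (O \ E).image st then 1 else 0) := by
    intro v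
    by_cases h1 : v ∈ E.image st
    · obtain ⟨b, hb, rfl⟩ := mem_image.mp h1
      have h2 : st b ∈ O.image st := mem_image_of_mem _ (hEO hb)
      have h3 : st b ∉ (O \ E).image st := by
        intro h
        obtain ⟨b', hb', hbb⟩ := mem_image.mp h
        have := H.inj (mem_coe.mpr (mem_sdiff.mp hb').1) (mem_coe.mpr (hEO hb)) hbb
        exact (mem_sdiff.mp hb').2 (this ▸ hb)
      rw [if_pos h1, if_pos h2, if_neg h3]
    · by_cases h2 : v ∈ O.image st
      · obtain ⟨b, hb, rfl⟩ := mem_image.mp h2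
        have h3 : st b ∈ (O \ E).image st :=
          mem_image_of_mem _ (mem_sdiff.mpr ⟨hb, fun h => h1 (mem_image_of_mem _ h)⟩)
        rw [if_neg h1, if_pos h2, if_pos h3]
      · have h3 : v ∉ (O \ E).image st := by
          intro h
          obtain ⟨b', hb', hbb⟩ := mem_image.mp h
          exact h2 (mem_image.mpr ⟨b', (mem_sdiff.mp hb').1, hbb⟩)
        rw [if_neg h1, if_neg h2, if_neg h3]
  have hWE : ∀ v ∈ W, v ∉ (O \ E).image st := by
    intro v hv h
    obtain ⟨b, hb, rfl⟩ := mem_image.mp h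
    exact (mem_sdiff.mp hb).2 (hE0 (mem_filter.mpr ⟨(mem_sdiff.mp hb).1, hv⟩))
  have hdeg : ∀ v, (nb (restG R E M) v).card +
      (if cst (O \ E) β st v ∈ Cl \ E then 1 else 0) + 1 =
      (Cl \ E).card + (if v ∈ W then 1 else 0) := by
    intro v
    have h1 := deg_rest hM v
    have h2 := H.deg v
    have h3 := hfull v
    have h4 := hsplit v
    have h5 : (cst (O \ E) β st v ∈ Cl \ E) ↔ v ∈ (O \ E).image st := cst_mem hO' hβ' v
    rw [if_congr h5 rfl rfl]
    omega
  obtain ⟨t0, ht0, ht0c⟩ := hCLEAN2 (restG R E M) (Cl \ E) (cst (O \ E) β st) W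
    (fun v w hvw h => cst_inj hβ' v w hvw h)
    (by
      intro v hv
      have h := hdeg v
      rw [if_neg hv] at h
      omega)
    (by
      intro v hv
      have h := hdeg v
      have h1 : cst (O \ E) β st v ∉ Cl \ E := fun hh => hWE v hv ((cst_mem hO' hβ' v).mp hh)
      rw [if_pos hv, if_neg h1] at h
      exact ⟨by omega, h1⟩)
    hM2
  obtain ⟨t, ht, ht1, ht2⟩ := merge hM hECl ht0
  refine ⟨t, ht, ?_⟩
  intro b hb w hw heq
  by_cases hc : ∃ b' ∈ E, M b' (st b) = w
  · obtain ⟨b', hb', hbw⟩ := hc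
    have h1 : M b' (st b) ≠ st b := by rw [hbw]; exact hw.ne.symm
    have h2 := ht1 b' hb' (st b) h1
    rw [hbw, heq] at h2
    rw [← h2] at h1 hb'
    exact h1 ((hM1 b hb' (st b)).mpr (mem_singleton_self _))
  · have h1 : (restG R E M).Adj (st b) w :=
      ⟨hw, fun b' hb' => ⟨fun h => hc ⟨b', hb', h⟩, fun h => hc ⟨b', hb', mts_sym hM hb' h⟩⟩⟩
    rw [ht2 _ _ h1] at heq
    by_cases hbE : b ∈ E
    · have h3 := (mem_sdiff.mp (ht0.mem _ _ h1)).2
      rw [heq] at h3
      exact h3 hbE
    · apply ht0c _ _ h1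
      have hinj' : Set.InjOn st ((O \ E : Finset ℕ) : Set ℕ) := by
        intro x hx y hy h
        exact H.inj (mem_coe.mpr (mem_sdiff.mp (mem_coe.mp hx)).1)
          (mem_coe.mpr (mem_sdiff.mp (mem_coe.mp hy)).1) h
      rw [heq, cst_st hinj' (mem_sdiff.mpr ⟨hb, hbE⟩)]

end Pool.Agent.Work.MP_db9399_lt.helper15
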