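import Pool.Agent.Work.MP_db9399_lt.Base

/-! THEOREM LT, the last stage: common lemmas for FINAE and FINAO. -/

set_option autoImplicit false
set_option linter.unusedSectionVars false

namespace Pool.Agent.Work.MP_db9399_lt.helper15

open Finset Classical
open Pool.Agent.Work.MP_db9399_all (nb)
open Pool.Agent.Work.MP_db9399_nc (nn PEC Mts mem_nb mem_nn)

universe u

variable {V : Type u} [Fintype V]

/-- the edges of `R` in no matching `M b`, `b ∈ E` -/
def restG (R : SimpleGraph V) (E : Finset ℕ) (M : ℕ → V → V) : SimpleGraph V where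
  Adj v w := R.Adj v w ∧ ∀ b ∈ E, M b v ≠ w ∧ M b w ≠ v
  symm := ⟨fun _ _ h => ⟨h.1.symm, fun b hb => ⟨(h.2 b hb).2, (h.2 b hb).1⟩⟩⟩
  loopless := ⟨fun v h => R.loopless.irrefl v h.1⟩

/-- the edges of `R` inside `W` -/
def onG (R : SimpleGraph V) (W : Finset V) : SimpleGraph V where
  Adj v w := R.Adj v w ∧ v ∈ W ∧ w ∈ W
  symm := ⟨fun _ _ h => ⟨h.1.symm, h.2.2, h.2.1⟩⟩
  loopless := ⟨fun v h => R.loopless.irrefl v h.1⟩

theorem nb_onG (R : SimpleGraph V) (W : Finset V) (v : V) : (nb (onG R W) v).card ≤ W.card := by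
  apply card_le_card
  intro w hw
  exact (mem_nb.mp hw).2.2

section
variable {R : SimpleGraph V} {E : Finset ℕ} {M : ℕ → V → V}

theorem mts_sym (hM : Mts R E M) {b : ℕ} (hb : b ∈ E) {v w : V} (h : M b v = w) : M b w = v := by
  rw [← h]; exact hM.inv b hb v

/-- degree of the rest -/
theorem deg_rest (hM : Mts R E M) (v : V) :
    (nb (restG R E M) v).card + (E.filter (fun b => M b v ≠ v)).card = (nb R v).card := by
  have h1 : nb R v = nb (restG R E M) v ∪ (E.filter (fun b => M b v ≠ v)).image (fun b => M b v) := by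
    ext w
    rw [mem_union, mem_nb, mem_nb, mem_image]
    constructor
    · intro h
      by_cases hc : ∃ b ∈ E, M b v = w
      · obtain ⟨b, hb, hbw⟩ := hc
        refine Or.inr ⟨b, mem_filter.mpr ⟨hb, ?_⟩, hbw⟩
        rw [hbw]
        rintro rfl
        exact R.loopless.irrefl _ h
      · refine Or.inl ⟨h, fun b hb => ⟨fun hh => hc ⟨b, hb, hh⟩, fun hh => hc ⟨b, hb, ?_⟩⟩⟩
        exact mts_sym hM hb hh
    · rintro (h | ⟨b, hb, rfl⟩)
      · exact h.1
      · rw [mem_filter] at hb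
        exact hM.adj b hb.1 v hb.2
  have h2 : Disjoint (nb (restG R E M) v) ((E.filter (fun b => M b v ≠ v)).image (fun b => M b v)) := by
    rw [disjoint_left]
    intro w hw hw'
    rw [mem_nb] at hw
    rw [mem_image] at hw'
    obtain ⟨b, hb, hbw⟩ := hw'
    exact (hw.2 b (mem_filter.mp hb).1).1 hbw
  have h3 : ((E.filter (fun b => M b v ≠ v)).image (fun b => M b v)).card =
      (E.filter (fun b => M b v ≠ v)).card := by
    apply card_image_of_injOn
    intro b hb b' hb' h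
    rw [mem_coe, mem_filter] at hb hb'
    by_contra hne
    exact hM.dis b hb.1 b' hb'.1 hne v hb.2 h
  rw [h1, card_union_of_disjoint h2, h3]

/-- the colours of the matchings and a colouring of the rest -/
theorem merge (hM : Mts R E M) {Cl : Finset ℕ} (hE : E ⊆ Cl) {t0 : V → V → ℕ}
    (ht : PEC (restG R E M) (Cl \ E) t0) :
    ∃ t : V → V → ℕ, PEC R Cl t ∧ (∀ b ∈ E, ∀ v, M b v ≠ v → t v (M b v) = b) ∧
      ∀ v w, (restG R E M).Adj v w → t v w = t0 v w := by
  -- the colour of a matching edge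
  have key : ∀ v w, ∃ x : ℕ, (∀ b ∈ E, M b v = w → v ≠ w → x = b) ∧
      ((¬ ∃ b ∈ E, M b v = w ∧ v ≠ w) → x = t0 v w) := by
    intro v w
    by_cases hc : ∃ b ∈ E, M b v = w ∧ v ≠ w
    · obtain ⟨b, hb, hbw, hvw⟩ := hc
      refine ⟨b, ?_, fun h => absurd ⟨b, hb, hbw, hvw⟩ h⟩
      intro b' hb' hb'w _
      by_contra hne
      refine hM.dis b hb b' hb' hne v ?_ (hbw.trans hb'w.symm)
      rw [hbw]; exact Ne.symm hvw
    · exact ⟨t0 v w, fun b hb h1 h2 => absurd ⟨b, hb, h1, h2⟩ hc, fun _ => rfl⟩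
  choose t ht1 ht2 using key
  have hrest : ∀ v w, R.Adj v w → (¬ ∃ b ∈ E, M b v = w ∧ v ≠ w) → (restG R E M).Adj v w := by
    intro v w h hc
    refine ⟨h, fun b hb => ⟨fun hh => hc ⟨b, hb, hh, h.ne⟩, fun hh => hc ⟨b, hb, ?_, h.ne⟩⟩⟩
    exact mts_sym hM hb hh
  have hnot : ∀ v w, (restG R E M).Adj v w → ¬ ∃ b ∈ E, M b v = w ∧ v ≠ w := by
    rintro v w h ⟨b, hb, hbw, _⟩
    exact (h.2 b hb).1 hbw
  have hval : ∀ v w, R.Adj v w → (∃ b ∈ E, M b v = w ∧ t v w = b) ∨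
      ((restG R E M).Adj v w ∧ t v w = t0 v w) := by
    intro v w h
    by_cases hc : ∃ b ∈ E, M b v = w ∧ v ≠ w
    · obtain ⟨b, hb, hbw, hvw⟩ := hc
      exact Or.inl ⟨b, hb, hbw, ht1 v w b hb hbw hvw⟩
    · exact Or.inr ⟨hrest v w h hc, ht2 v w hc⟩
  refine ⟨t, ⟨?_, ?_, ?_⟩, ?_, ?_⟩
  · intro v w
    by_cases hc : ∃ b ∈ E, M b v = w ∧ v ≠ w
    · obtain ⟨b, hb, hbw, hvw⟩ := hc
      rw [ht1 v w b hb hbw hvw, ht1 w v b hb (mts_sym hM hb hbw) (Ne.symm hvw)]
    · have hc' : ¬ ∃ b ∈ E, M b w = v ∧ w ≠ v := by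
        rintro ⟨b, hb, hbw, hvw⟩
        exact hc ⟨b, hb, mts_sym hM hb hbw, Ne.symm hvw⟩
      rw [ht2 v w hc, ht2 w v hc', ht.sym]
  · intro v w h
    rcases hval v w h with ⟨b, hb, _, h2⟩ | ⟨h1, h2⟩
    · rw [h2]; exact hE hb
    · rw [h2]; exact (mem_sdiff.mp (ht.mem v w h1)).1
  · intro v w hw w' hw' h
    have hw := mem_nb.mp (mem_coe.mp hw)
    have hw' := mem_nb.mp (mem_coe.mp hw')
    rcases hval v w hw with ⟨b, hb, h1, h2⟩ | ⟨h1, h2⟩
    · rcases hval v w' hw' with ⟨b', hb', h1', h2'⟩ | ⟨h1', h2'⟩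
      · have : b = b' := by rw [← h2, ← h2']; exact h
        rw [← h1, ← h1', this]
      · exfalso
        have h3 := (mem_sdiff.mp (ht.mem v w' h1')).2
        apply h3
        rw [← h2', ← h, h2]; exact hb
    · rcases hval v w' hw' with ⟨b', hb', h1', h2'⟩ | ⟨h1', h2'⟩
      · exfalso
        have h3 := (mem_sdiff.mp (ht.mem v w h1)).2
        apply h3
        rw [← h2, h, h2']; exact hb'
      · refine ht.inj v (mem_coe.mpr (mem_nb.mpr h1)) (mem_coe.mpr (mem_nb.mpr h1')) ?_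
        rw [← h2, ← h2']; exact h
  · intro b hb v hv
    exact ht1 v (M b v) b hb rfl (Ne.symm hv)
  · intro v w h
    exact ht2 v w (hnot v w h)

end

/-- the prescribed colours: `cst O β st v = b` if `v = st b`, `b ∈ O`, otherwise `β` -/
noncomputable def cst (O : Finset ℕ) (β : ℕ) (st : ℕ → V) (v : V) : ℕ :=
  if h : ∃ b ∈ O, st b = v then h.choose else β

section
variable {O Cl : Finset ℕ} {β : ℕ} {st : ℕ → V}

theorem cst_st (hinj : Set.InjOn st (O : Set ℕ)) {b : ℕ} (hb : b ∈ O) :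
    cst O β st (st b) = b := by
  have h : ∃ b' ∈ O, st b' = st b := ⟨b, hb, rfl⟩
  unfold cst
  rw [dif_pos h]
  exact hinj (mem_coe.mpr h.choose_spec.1) (mem_coe.mpr hb) h.choose_spec.2

theorem cst_cases (v : V) : (cst O β st v ∈ O ∧ st (cst O β st v) = v) ∨
    (v ∉ O.image st ∧ cst O β st v = β) := by
  by_cases h : ∃ b ∈ O, st b = v
  · left
    unfold cst
    rw [dif_pos h]
    exact h.choose_spec
  · right
    refine ⟨fun hh => h (mem_image.mp hh), ?_⟩
    unfold cst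
    rw [dif_neg h]

theorem cst_mem (hO : O ⊆ Cl) (hβ : β ∉ Cl) (v : V) : cst O β st v ∈ Cl ↔ v ∈ O.image st := by
  rcases cst_cases (O := O) (β := β) (st := st) v with ⟨h1, h2⟩ | ⟨h1, h2⟩
  · exact ⟨fun _ => mem_image.mpr ⟨_, h1, h2⟩, fun _ => hO h1⟩
  · exact ⟨fun h => absurd (h2 ▸ h) hβ, fun h => absurd h h1⟩

theorem cst_inj (hβ : β ∉ Cl) (v w : V) (hvw : v ≠ w) (h : cst O β st v = cst O β st w) :
    cst O β st v ∉ Cl := by
  rcases cst_cases (O := O) (β := β) (st := st) v with ⟨h1, h2⟩ | ⟨h1, h2⟩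
  · rcases cst_cases (O := O) (β := β) (st := st) w with ⟨h1', h2'⟩ | ⟨h1', h2'⟩
    · exact absurd (by rw [← h2, ← h2', h]) hvw
    · rw [h, h2']; exact hβ
  · rw [h2]; exact hβ

theorem exists_notMem (Cl : Finset ℕ) : ∃ β, β ∉ Cl :=
  ⟨Cl.sup id + 1, fun h => by
    have := Finset.le_sup (f := id) h
    simp only [id] at this
    omega⟩

end

section
variable {R : SimpleGraph V} {Cl O : Finset ℕ} {st : ℕ → V} {W : Finset V}

theorem fd_nn_le (H : FD R Cl O st W) (v : V) :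
    (nn R univ v).card + Cl.card ≤ Fintype.card V + 1 := by
  have h1 := card_V R v
  have h2 := H.deg v
  split_ifs at h2 <;> omega

/-- rounds with the colours `E`: everything inside `W` is absorbed, `X b` is missed -/
theorem rounds (hABSB : Pool.Agent.Work.MP_db9399_nc.Stmt_ABSB.{u})
    (hCOMP : Pool.Agent.Work.MP_db9399_nc.Stmt_COMP.{u}) (H : FD R Cl O st W)
    (E : Finset ℕ) (hE : E.card = 2 * W.card + 14) (X : ℕ → Finset V)
    (hX1 : ∀ b ∈ E, (X b).card ≤ 1) (hX2 : ∀ v, (E.filter (fun b => v ∈ X b)).card ≤ 1)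
    (hX3 : ∀ b ∈ E, Even (univ \ X b).card) :
    ∃ M : ℕ → V → V, Mts R E M ∧ (∀ b ∈ E, ∀ v, M b v = v ↔ v ∈ X b) ∧
      ∀ v ∈ W, ∀ w ∈ W, ¬ (restG R E M).Adj v w := by
  by_cases hne : Nonempty V
  swap
  · rw [not_nonempty_iff] at hne
    exact ⟨fun _ v => v, ⟨fun _ _ v => rfl, fun _ _ v h => absurd rfl h,
      fun _ _ _ _ _ v h => absurd rfl h⟩, fun _ _ v => (hne.false v).elim,
      fun v => (hne.false v).elim⟩
  obtain ⟨K, hK, hKW, hKc⟩ := hABSB R W E (fun v => E.filter (fun b => v ∈ X b)) 1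
    (fun v _ => hX2 v) (by omega)
  have hKX : ∀ b ∈ E, ∀ v, K b v ≠ v → v ∈ W ∧ v ∉ X b := by
    intro b hb v hv
    obtain ⟨h1, h2⟩ := hKW b hb v hv
    exact ⟨h1, fun h => h2 (mem_filter.mpr ⟨hb, h⟩)⟩
  have hd := H.dense
  norm_num at hd
  obtain ⟨M, hM, hM1, hM2, hM3⟩ := hCOMP R (onG R W) E
    ((Fintype.card V + 1 - Cl.card) + W.card + (2 * W.card + 14)) X K hK
    (by
      intro b hb v hv
      obtain ⟨h1, h2⟩ := hKX b hb v hv
      refine ⟨⟨hK.adj b hb v hv, h1, ?_⟩, h2⟩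
      apply (hKX b hb (K b v) _).1
      rw [hK.inv b hb v]
      exact Ne.symm hv)
    hX3
    (by
      intro v
      have h1 := fd_nn_le H v
      have h2 := nb_onG R W v
      rw [hE]
      omega)
    (by
      intro b hb
      have h1 := hX1 b hb
      have h2 : (univ.filter (fun v => K b v ≠ v)).card ≤ W.card := by
        apply card_le_card
        intro v hv
        exact (hKX b hb v (mem_filter.mp hv).2).1
      obtain ⟨v⟩ := hne
      have h3 := fd_nn_le H v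
      omega)
  refine ⟨M, hM, hM1, ?_⟩
  intro v hv w hw h
  obtain ⟨b, hb, hbw⟩ := hKc v hv w hw h.1
  have h1 : K b v ≠ v := by rw [hbw]; exact h.1.ne.symm
  have h2 := hM2 b hb v h1
  exact (h.2 b hb).1 (h2.trans hbw)

end

end Pool.Agent.Work.MP_db9399_lt.helper15
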